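import Pool.Agent.SparseIrr.Main

/-!
Over a perfect field of characteristic `p` (for instance a finite field), reducibility of a
polynomial `f` with `s` monomials and individual degrees below `p ^ m` is certified by three
polynomials `a`, `b`, `w` with `f * w = a * b`, having at most `s ^ ((p - 1) * m)`,
`s ^ ((p - 1) * m)` and `s ^ (3 * (p - 1) * m)` monomials.
-/

namespace Pool.Agent.Results.MP_1bab94_lc.SparseCertificates

open MvPolynomial

theorem result {p : ℕ} [Fact p.Prime] {F : Type*} [Field F] [PerfectField F] [CharP F p]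
    {σ : Type*} (f : MvPolynomial σ F) (m : ℕ)
    (hdeg : ∀ i, f.degreeOf i < p ^ m) (hf : 0 < f.totalDegree) :
    ¬ Irreducible f ↔ ∃ a b w : MvPolynomial σ F,
      f * w = a * b ∧
      a.totalDegree ≤ f.totalDegree ∧ b.totalDegree ≤ f.totalDegree ∧
      (∀ c : F, a ≠ C c * f) ∧ (∀ c : F, b ≠ C c * f) ∧
      a.support.card ≤ f.support.card ^ ((p - 1) * m) ∧
      b.support.card ≤ f.support.card ^ ((p - 1) * m) ∧
      w.support.card ≤ f.support.card ^ (3 * ((p - 1) * m)) :=
  Pool.Agent.SparseIrr.reducible_iff_cert p m f hdeg hf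

end Pool.Agent.Results.MP_1bab94_lc.SparseCertificates
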